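import Mathlib
import Pool.Agent.H715R2.Exit
import Pool.Agent.H715R2.Uncountable
import Pool.Agent.Y327.Recur

/-! # Sequences of forms bounded away from zero which converge to an integral form -/

set_option autoImplicit false

open Filter Topology Matrix

namespace Pool.Agent.helper890_csd

open H715R2 Pool.Agent.Y327

variable {d : ℕ}

/-- the orbit relation is symmetric -/
lemma orb_symm {g h : Matrix (Fin d) (Fin d) ℝ} (hh : h ∈ Orb g) : g ∈ Orb h := by
  obtain ⟨a, γ, ha0, ha1, hγ, rfl⟩ := hh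
  refine ⟨fun i => (a i)⁻¹, γ⁻¹, fun i => inv_pos.2 (ha0 i), ?_, ?_, ?_⟩
  · rw [Finset.prod_inv_distrib, ha1, inv_one]
  · exact Matrix.isUnit_nonsing_inv_det _ hγ
  · have h1 : diagonal (fun i => (a i)⁻¹) * diagonal a = (1 : Matrix (Fin d) (Fin d) ℝ) := by
      rw [diagonal_mul_diagonal]
      rw [← diagonal_one]
      congr 1
      funext i
      exact inv_mul_cancel₀ (ha0 i).ne'
    have h2 : diagonal (fun i => (a i)⁻¹) * (diagonal a * g * zR γ) * zR γ⁻¹ =
        (diagonal (fun i => (a i)⁻¹) * diagonal a) * g * (zR γ * zR γ⁻¹) := by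
      simp only [Matrix.mul_assoc]
    rw [h2, h1, zR_inv hγ, Matrix.one_mul, Matrix.mul_one]

/-- integrality of a form does not change when the rows are scaled -/
lemma propInt_diag {h : Matrix (Fin d) (Fin d) ℝ} (hP : PropInt h) {a : Fin d → ℝ}
    (ha : ∀ i, a i ≠ 0) : PropInt (diagonal a * h) := by
  obtain ⟨c, hc, hz⟩ := hP
  have hA : (∏ i, a i) ≠ 0 := Finset.prod_ne_zero_iff.2 fun i _ => ha i
  refine ⟨c / ∏ i, a i, div_ne_zero hc hA, fun m => ?_⟩
  obtain ⟨z, hz⟩ := hz m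
  refine ⟨z, ?_⟩
  have h1 : polyF (diagonal a * h) = (∏ i, a i) • polyF h := by
    unfold polyF
    have h2 : ∀ i : Fin d, ∑ j : Fin d, MvPolynomial.C ((diagonal a * h) i j) *
        (MvPolynomial.X j : MvPolynomial (Fin d) ℝ) =
        MvPolynomial.C (a i) * ∑ j : Fin d, MvPolynomial.C (h i j) * MvPolynomial.X j := by
      intro i
      rw [Finset.mul_sum]
      refine Finset.sum_congr rfl fun j _ => ?_
      rw [diagonal_mul, map_mul, mul_assoc]
    rw [Finset.prod_congr rfl fun i _ => h2 i, Finset.prod_mul_distrib, MvPolynomial.smul_eq_C_mul,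
      map_prod]
  rw [h1, smul_smul, div_mul_cancel₀ _ hA]
  exact hz

/-- **Isolation.** -/
theorem iso_seq (hd : 3 ≤ d) {h : Matrix (Fin d) (Fin d) ℝ} (hh : h.det ≠ 0) {ν : ℝ} (hν : 0 < ν)
    (hnu : HasNu h ν) (hP : PropInt h) {V : ℝ} (hV : 0 < V)
    (hs : ℕ → Matrix (Fin d) (Fin d) ℝ) (hlim : Tendsto hs atTop (𝓝 h))
    (hdet : ∀ n, |(hs n).det| = V) (hsnu : ∀ n, HasNu (hs n) ν) :
    ∀ᶠ n in atTop, ∃ a : Fin d → ℝ, (∀ i, a i ≠ 0) ∧ hs n = diagonal a * h := by
  classical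
  have hd0 : 0 < d := by omega
  obtain ⟨K, hNF, D, t, B, c, hbij, hreal, hBc, hBdet, hgB⟩ := dat_of_propInt hd hh hν hnu hP
  have hc0 : ∀ i, c i ≠ 0 := by
    have h1 : (diagonal c * B).det ≠ 0 := by rw [← hgB]; exact hh
    rw [det_mul, det_diagonal] at h1
    exact fun i => Finset.prod_ne_zero_iff.1 (left_ne_zero_of_mul h1) i (Finset.mem_univ i)
  have hBu : IsUnit B.det := isUnit_iff_ne_zero.2 hBdet
  by_contra hcon
  have hex : ∃ i k : Fin d, i ≠ k ∧ ∃ᶠ n in atTop, (hs n * B⁻¹) i k ≠ 0 := by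
    by_contra hno
    push Not at hno
    apply hcon
    have h1 : ∀ᶠ n in atTop, ∀ i k : Fin d, i ≠ k → (hs n * B⁻¹) i k = 0 := by
      refine Filter.eventually_all.2 fun i => Filter.eventually_all.2 fun k => ?_
      by_cases hik : i = k
      · exact Eventually.of_forall fun n h => absurd hik h
      · exact (hno i k hik).mono fun n hn _ => hn
    refine h1.mono fun n hn => ?_
    set E := hs n * B⁻¹ with hE
    have hEB : E * B = hs n := by
      rw [hE, Matrix.mul_assoc, Matrix.nonsing_inv_mul _ hBu, Matrix.mul_one]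
    have hEd : E = diagonal (fun i => E i i) := by
      ext i k
      by_cases hik : i = k
      · subst hik; rw [diagonal_apply_eq]
      · rw [diagonal_apply_ne _ hik, hn i k hik]
    have hEne : ∀ i, E i i ≠ 0 := by
      have h2 : (E * B).det ≠ 0 := by
        rw [hEB]
        intro h0
        have := hdet n
        rw [h0, abs_zero] at this
        exact hV.ne this
      rw [det_mul, hEd, det_diagonal] at h2
      exact fun i => Finset.prod_ne_zero_iff.1 (left_ne_zero_of_mul h2) i (Finset.mem_univ i)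
    refine ⟨fun i => E i i / c i, fun i => div_ne_zero (hEne i) (hc0 i), ?_⟩
    rw [hgB, ← Matrix.mul_assoc, diagonal_mul_diagonal]
    have h3 : (fun i => E i i / c i * c i) = fun i => E i i := by
      funext i
      exact div_mul_cancel₀ _ (hc0 i)
    rw [h3, ← hEd, hEB]
  obtain ⟨i, k, hik, hfreq⟩ := hex
  obtain ⟨θ, hθ1, hθ2, hθ3⟩ := exists_theta hd0 i k hik
  obtain ⟨h', φ, a, γ, T, R, hφ, ha0, ha1, hγ, -, -, hlim', hVV⟩ :=
    exit_lemma D t hbij hreal B c hBc hc0 hBdet hs (by rw [← hgB]; exact hlim) V hV hdet i k hfreq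
      θ hθ1 hθ2 hθ3
  have hnu' : HasNu h' ν := by
    intro m hm
    have h1 : Tendsto (fun n => |FF (diagonal (a n) * hs (φ n) * zR (γ n)) (iR m)|) atTop
        (𝓝 |FF h' (iR m)|) :=
      ((continuous_abs.comp (continuous_FF (iR m))).tendsto h').comp hlim'
    refine ge_of_tendsto h1 (Eventually.of_forall fun n => ?_)
    exact hasNu_closure (hsnu (φ n)) (subset_closure
      ⟨a n, γ n, ha0 n, ha1 n, hγ n, rfl⟩) m hm
  obtain ⟨x, hx, hx1⟩ := dense_ne hd0 hVV 0 ν hν
  rw [sub_zero] at hx1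
  exact absurd (hnu' x hx) (not_le.2 hx1)

/-- closedness of the level sets -/
lemma hasNu_lim {hs : ℕ → Matrix (Fin d) (Fin d) ℝ} {h : Matrix (Fin d) (Fin d) ℝ}
    (hlim : Tendsto hs atTop (𝓝 h)) {μ : ℕ → ℝ} {ν : ℝ} (hμ : Tendsto μ atTop (𝓝 ν))
    (hnu : ∀ n, HasNu (hs n) (μ n)) : HasNu h ν := by
  intro m hm
  have h1 : Tendsto (fun n => |FF (hs n) (iR m)|) atTop (𝓝 |FF h (iR m)|) :=
    ((continuous_abs.comp (continuous_FF (iR m))).tendsto h).comp hlim
  exact le_of_tendsto_of_tendsto' hμ h1 fun n => hnu n m hm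

/-- compactness modulo integral changes of variables -/
lemma exists_limit (hd : 0 < d) {V ν : ℝ} (hV : 0 < V) (hν : 0 < ν)
    (gs : ℕ → Matrix (Fin d) (Fin d) ℝ) (hdet : ∀ n, |(gs n).det| = V)
    (hnu : ∀ n, HasNu (gs n) ν) :
    ∃ (γ : ℕ → Matrix (Fin d) (Fin d) ℤ) (φ : ℕ → ℕ) (h : Matrix (Fin d) (Fin d) ℝ),
      (∀ n, IsUnit (γ n).det) ∧ StrictMono φ ∧
      Tendsto (fun n => gs (φ n) * zR (γ (φ n))) atTop (𝓝 h) ∧ |h.det| = V := by
  obtain ⟨R, hR⟩ := exists_bound hd V ν hV hν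
  choose γ hγ hb using fun n => hR (gs n) (hdet n) (hnu n)
  obtain ⟨h, -, φ, hφ, hlim⟩ := (isCompact_box (d := d) R).tendsto_subseq
    (x := fun n => gs n * zR (γ n)) (fun n => hb n)
  refine ⟨γ, φ, h, hγ, hφ, hlim, ?_⟩
  have h1 : Tendsto (fun n => |(gs (φ n) * zR (γ (φ n))).det|) atTop (𝓝 |h.det|) :=
    ((continuous_abs.comp continuous_det').tendsto h).comp hlim
  have h2 : ∀ n, |(gs (φ n) * zR (γ (φ n))).det| = V := by
    intro n
    rw [det_mul, abs_mul, hdet, det_zR, abs_det_of_isUnit (hγ _), mul_one]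
  simp only [h2] at h1
  exact tendsto_nhds_unique h1 tendsto_const_nhds |>.symm ▸ rfl

lemma mem_orb_gam (g : Matrix (Fin d) (Fin d) ℝ) {γ : Matrix (Fin d) (Fin d) ℤ}
    (hγ : IsUnit γ.det) : g * zR γ ∈ Orb g :=
  ⟨fun _ => 1, γ, fun _ => one_pos, by simp, hγ, by rw [diagonal_one, Matrix.one_mul]⟩

end Pool.Agent.helper890_csd
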