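import Mathlib
import Pool.Agent.helper890_csd.Iso
import Pool.Agent.TH314.CSD.Attain

/-! # The threshold between finitely many and uncountably many classes -/

set_option autoImplicit false

open Filter Topology Matrix

namespace Pool.Agent.helper890_csd

open H715R2 Pool.Agent.Y327

variable {d : ℕ}

/-- equivalence of the products of the rows, up to a constant -/
def Eqv (g h : Matrix (Fin d) (Fin d) ℝ) : Prop :=
  ∃ (c : ℝ) (γ : Matrix (Fin d) (Fin d) ℤ), c ≠ 0 ∧ IsUnit γ.det ∧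
    ∀ x : Fin d → ℤ, FF g (iR x) = c * FF h (iR (γ *ᵥ x))

lemma Eqv.symm {g h : Matrix (Fin d) (Fin d) ℝ} (hgh : Eqv g h) : Eqv h g := by
  obtain ⟨c, γ, hc, hγ, heq⟩ := hgh
  refine ⟨c⁻¹, γ⁻¹, inv_ne_zero hc, Matrix.isUnit_nonsing_inv_det _ hγ, fun x => ?_⟩
  rw [heq, mulVec_mulVec, Matrix.mul_nonsing_inv _ hγ, one_mulVec, ← mul_assoc,
    inv_mul_cancel₀ hc, one_mul]

lemma Eqv.trans {g h k : Matrix (Fin d) (Fin d) ℝ} (hgh : Eqv g h) (hhk : Eqv h k) : Eqv g k := by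
  obtain ⟨c, γ, hc, hγ, heq⟩ := hgh
  obtain ⟨c', γ', hc', hγ', heq'⟩ := hhk
  refine ⟨c * c', γ' * γ, mul_ne_zero hc hc', ?_, fun x => ?_⟩
  · rw [det_mul]; exact hγ'.mul hγ
  · rw [heq, heq', mulVec_mulVec, mul_assoc]

lemma FF_zR (g : Matrix (Fin d) (Fin d) ℝ) (γ : Matrix (Fin d) (Fin d) ℤ) (x : Fin d → ℤ) :
    FF (g * zR γ) (iR x) = FF g (iR (γ *ᵥ x)) := by
  rw [FF_eq, FF_eq, ← mulVec_mulVec, zR_mulVec_iR]

lemma FF_diag (a : Fin d → ℝ) (g : Matrix (Fin d) (Fin d) ℝ) (x : Fin d → ℝ) :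
    FF (diagonal a * g) x = (∏ i, a i) * FF g x := by
  rw [FF_eq, FF_eq, ← mulVec_mulVec, ← Finset.prod_mul_distrib]
  refine Finset.prod_congr rfl fun i _ => ?_
  rw [mulVec_diagonal]

lemma eqv_of_gam {g h : Matrix (Fin d) (Fin d) ℝ} {γ : Matrix (Fin d) (Fin d) ℤ}
    (hγ : IsUnit γ.det) {a : Fin d → ℝ} (ha : ∀ i, a i ≠ 0) (heq : g * zR γ = diagonal a * h) :
    Eqv g h := by
  apply Eqv.symm
  have hA : (∏ i, a i) ≠ 0 := Finset.prod_ne_zero_iff.2 fun i _ => ha i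
  refine ⟨(∏ i, a i)⁻¹, γ, inv_ne_zero hA, hγ, fun x => ?_⟩
  rw [← FF_zR, heq, FF_diag, ← mul_assoc, inv_mul_cancel₀ hA, one_mul]

/-- normalized infimum -/
noncomputable def nb (g : Matrix (Fin d) (Fin d) ℝ) : ℝ := nuInf g / |g.det|

/-- normalization of the determinant -/
noncomputable def Nm (i₀ : Fin d) (g : Matrix (Fin d) (Fin d) ℝ) : Matrix (Fin d) (Fin d) ℝ :=
  diagonal (Function.update (fun _ => (1 : ℝ)) i₀ |g.det|⁻¹) * g

lemma prod_upd (i₀ : Fin d) (s : ℝ) :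
    ∏ i, Function.update (fun _ : Fin d => (1 : ℝ)) i₀ s i = s := by
  rw [Finset.prod_update_of_mem (Finset.mem_univ i₀)]
  simp

lemma upd_ne (i₀ : Fin d) {s : ℝ} (hs : s ≠ 0) (i : Fin d) :
    Function.update (fun _ : Fin d => (1 : ℝ)) i₀ s i ≠ 0 := by
  by_cases h : i = i₀
  · subst h; rw [Function.update_self]; exact hs
  · rw [Function.update_of_ne h]; exact one_ne_zero

lemma det_Nm (i₀ : Fin d) {g : Matrix (Fin d) (Fin d) ℝ} (hg : g.det ≠ 0) :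
    |(Nm i₀ g).det| = 1 := by
  rw [Nm, det_mul, det_diagonal, prod_upd, abs_mul, abs_inv, abs_abs,
    inv_mul_cancel₀ (abs_ne_zero.2 hg)]

lemma FF_Nm (i₀ : Fin d) (g : Matrix (Fin d) (Fin d) ℝ) (x : Fin d → ℝ) :
    FF (Nm i₀ g) x = |g.det|⁻¹ * FF g x := by
  rw [Nm, FF_diag, prod_upd]

lemma eqv_Nm (i₀ : Fin d) {g : Matrix (Fin d) (Fin d) ℝ} (hg : g.det ≠ 0) : Eqv g (Nm i₀ g) := by
  refine ⟨|g.det|, 1, abs_ne_zero.2 hg, by simp, fun x => ?_⟩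
  rw [one_mulVec, FF_Nm, ← mul_assoc, mul_inv_cancel₀ (abs_ne_zero.2 hg), one_mul]

lemma propInt_of_Nm (i₀ : Fin d) {g : Matrix (Fin d) (Fin d) ℝ} (hg : g.det ≠ 0)
    (hP : PropInt (Nm i₀ g)) : PropInt g := by
  have h1 := propInt_diag hP (a := Function.update (fun _ => (1 : ℝ)) i₀ |g.det|)
    (upd_ne i₀ (abs_ne_zero.2 hg))
  rw [Nm, ← Matrix.mul_assoc, diagonal_mul_diagonal] at h1
  have h2 : (fun i => Function.update (fun _ : Fin d => (1 : ℝ)) i₀ |g.det| i *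
      Function.update (fun _ => (1 : ℝ)) i₀ |g.det|⁻¹ i) = fun _ => (1 : ℝ) := by
    funext i
    by_cases h : i = i₀
    · subst h
      rw [Function.update_self, Function.update_self, mul_inv_cancel₀ (abs_ne_zero.2 hg)]
    · rw [Function.update_of_ne h, Function.update_of_ne h, one_mul]
  rwa [h2, diagonal_one, Matrix.one_mul] at h1

lemma hasNu_nuInf (g : Matrix (Fin d) (Fin d) ℝ) : HasNu g (nuInf g) :=
  fun m hm => ciInf_le (nuInf_bdd g) ⟨m, hm⟩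

lemma hasNu_Nm (i₀ : Fin d) {g : Matrix (Fin d) (Fin d) ℝ} (hg : g.det ≠ 0) {ν : ℝ}
    (hν : ν ≤ nb g) : HasNu (Nm i₀ g) ν := by
  intro m hm
  have h0 : 0 < |g.det| := abs_pos.2 hg
  have h1 := hasNu_nuInf g m hm
  rw [FF_Nm, abs_mul, abs_inv, abs_abs]
  refine hν.trans ?_
  rw [nb, div_eq_inv_mul]
  exact mul_le_mul_of_nonneg_left h1 (inv_nonneg.2 h0.le)

lemma nb_of_hasNu (hd : 0 < d) {g : Matrix (Fin d) (Fin d) ℝ} (hdet : |g.det| = 1) {ν : ℝ}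
    (hnu : HasNu g ν) : ν ≤ nb g := by
  rw [nb, hdet, div_one]
  exact le_nuInf hd hnu

lemma HasNu.mono' {g : Matrix (Fin d) (Fin d) ℝ} {ν μ : ℝ} (h : HasNu g ν) (hμ : μ ≤ ν) :
    HasNu g μ := fun m hm => hμ.trans (h m hm)

lemma det_ne_of_one {g : Matrix (Fin d) (Fin d) ℝ} (hdet : |g.det| = 1) : g.det ≠ 0 := by
  intro h0
  rw [h0, abs_zero] at hdet
  exact zero_ne_one hdet

/-- limits of a non-integral form which is bounded below are not integral -/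
theorem not_propInt_cl (hd : 3 ≤ d) {g : Matrix (Fin d) (Fin d) ℝ} (hg : g.det ≠ 0) {ν : ℝ}
    (hν : 0 < ν) (hnu : HasNu g ν) (hint : ¬ PropInt g) {h : Matrix (Fin d) (Fin d) ℝ}
    (hh : h ∈ closure (Orb g)) : ¬ PropInt h := by
  intro hP
  have hdet : |h.det| = |g.det| := abs_det_closure hh
  have hdet0 : h.det ≠ 0 := by
    rw [← abs_ne_zero, hdet, abs_ne_zero]; exact hg
  have hnuh := hasNu_closure hnu hh
  obtain ⟨hs, hs1, hs2⟩ := mem_closure_iff_seq_limit.1 hh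
  have h1 := iso_seq hd hdet0 hν hnuh hP (abs_pos.2 hg) hs hs2
    (fun n => abs_det_closure (subset_closure (hs1 n)))
    (fun n => hasNu_closure hnu (subset_closure (hs1 n)))
  obtain ⟨n, a, ha, hn⟩ := h1.exists
  have h2 : PropInt (hs n) := by rw [hn]; exact propInt_diag hP ha
  have h3 : (hs n).det ≠ 0 := by
    rw [← abs_ne_zero, abs_det_closure (subset_closure (hs1 n)), abs_ne_zero]; exact hg
  exact hint (propInt_closure hd h3 hν (hasNu_closure hnu (subset_closure (hs1 n))) h2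
    (subset_closure (orb_symm (hs1 n))))

/-- **Finiteness.** -/
theorem finite_classes (hd : 3 ≤ d) {ν : ℝ} (hν : 0 < ν)
    (hall : ∀ g : Matrix (Fin d) (Fin d) ℝ, |g.det| = 1 → HasNu g ν → PropInt g) :
    ∃ H : Finset (Matrix (Fin d) (Fin d) ℝ), (∀ h ∈ H, |h.det| = 1 ∧ HasNu h ν) ∧
      ∀ g : Matrix (Fin d) (Fin d) ℝ, |g.det| = 1 → HasNu g ν → ∃ h ∈ H, Eqv g h := by
  classical
  have hd0 : 0 < d := by omega
  by_contra hcon
  push Not at hcon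
  obtain ⟨f, hf1, hf2⟩ := exists_seq_of_forall_finset_exists
    (fun g : Matrix (Fin d) (Fin d) ℝ => |g.det| = 1 ∧ HasNu g ν)
    (fun x y => ¬ Eqv y x) (fun s hs => by
      obtain ⟨g, hg1, hg2, hg3⟩ := hcon s hs
      exact ⟨g, ⟨hg1, hg2⟩, hg3⟩)
  obtain ⟨γ, φ, h, hγ, hφ, hlim, hdet⟩ := exists_limit hd0 one_pos hν f (fun n => (hf1 n).1)
    (fun n => (hf1 n).2)
  have hsnu : ∀ n, HasNu (f (φ n) * zR (γ (φ n))) ν := fun n =>
    hasNu_closure (hf1 (φ n)).2 (subset_closure (mem_orb_gam _ (hγ _)))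
  have hsdet : ∀ n, |(f (φ n) * zR (γ (φ n))).det| = 1 := fun n => by
    rw [abs_det_closure (subset_closure (mem_orb_gam _ (hγ _))), (hf1 _).1]
  have hnuh : HasNu h ν := hasNu_lim hlim tendsto_const_nhds hsnu
  have hP := hall h hdet hnuh
  obtain ⟨n₀, hn₀⟩ := eventually_atTop.1
    (iso_seq hd (det_ne_of_one hdet) hν hnuh hP one_pos _ hlim hsdet hsnu)
  obtain ⟨a, ha, h1⟩ := hn₀ n₀ le_rfl
  obtain ⟨b, hb, h2⟩ := hn₀ (n₀ + 1) (Nat.le_succ _)
  have h3 := eqv_of_gam (hγ _) ha h1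
  have h4 := eqv_of_gam (hγ _) hb h2
  exact hf2 (φ n₀) (φ (n₀ + 1)) (hφ (Nat.lt_succ_self _)) (h4.trans h3.symm)

/-- the levels of non-integral forms -/
def Lev (d : ℕ) : Set ℝ := {ν | ν = 0 ∨ ∃ g : Matrix (Fin d) (Fin d) ℝ, |g.det| = 1 ∧ HasNu g ν ∧
  ¬ PropInt g}

lemma lev_le (hd : 0 < d) {ν : ℝ} (hν : ν ∈ Lev d) : ν ≤ (d.factorial : ℝ) / (d : ℝ) ^ d := by
  have hdd : (0 : ℝ) < (d : ℝ) ^ d := by
    have : (0 : ℝ) < d := by exact_mod_cast hd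
    positivity
  rcases hν with rfl | ⟨g, hg1, hg2, -⟩
  · positivity
  · refine le_of_forall_gt_imp_ge_of_dense fun T hT => ?_
    obtain ⟨m, hm, hm2⟩ := mink_prod hd 1 T one_pos (by
      rw [mul_one]
      rw [div_lt_iff₀ hdd] at hT
      rwa [mul_comm] at hT) g hg1
    exact (hg2 m hm).trans hm2.le

lemma lev_bdd (hd : 0 < d) : BddAbove (Lev d) := ⟨_, fun _ h => lev_le hd h⟩

/-- **The supremum is attained.** -/
theorem exists_extremal (hd : 3 ≤ d) (hτ : 0 < sSup (Lev d)) :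
    ∃ g : Matrix (Fin d) (Fin d) ℝ, |g.det| = 1 ∧ HasNu g (sSup (Lev d)) ∧ ¬ PropInt g := by
  have hd0 : 0 < d := by omega
  set τ := sSup (Lev d) with hτd
  obtain ⟨u, humono, hulim, hu⟩ := exists_seq_tendsto_sSup (S := Lev d) ⟨0, Or.inl rfl⟩ (lev_bdd hd0)
  rw [← hτd] at hulim
  obtain ⟨N, hN⟩ := eventually_atTop.1 (hulim.eventually (lt_mem_nhds (half_lt_self hτ)))
  have hv : ∀ n, ∃ g : Matrix (Fin d) (Fin d) ℝ, |g.det| = 1 ∧ HasNu g (u (n + N)) ∧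
      ¬ PropInt g := by
    intro n
    rcases hu (n + N) with h0 | h1
    · exfalso
      have := hN (n + N) (Nat.le_add_left _ _)
      rw [h0] at this
      linarith
    · exact h1
  choose gs hg1 hg2 hg3 using hv
  have hhalf : ∀ n, HasNu (gs n) (τ / 2) := fun n =>
    HasNu.mono' (hg2 n) (hN (n + N) (Nat.le_add_left _ _)).le
  obtain ⟨γ, φ, h, hγ, hφ, hlim, hdet⟩ := exists_limit hd0 one_pos (half_pos hτ) gs hg1 hhalf
  have hsnu : ∀ n, HasNu (gs (φ n) * zR (γ (φ n))) (u (φ n + N)) := fun n =>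
    hasNu_closure (hg2 (φ n)) (subset_closure (mem_orb_gam _ (hγ _)))
  have hsnu' : ∀ n, HasNu (gs (φ n) * zR (γ (φ n))) (τ / 2) := fun n =>
    hasNu_closure (hhalf (φ n)) (subset_closure (mem_orb_gam _ (hγ _)))
  have hsdet : ∀ n, |(gs (φ n) * zR (γ (φ n))).det| = 1 := fun n => by
    rw [abs_det_closure (subset_closure (mem_orb_gam _ (hγ _))), hg1]
  have hlimu : Tendsto (fun n => u (φ n + N)) atTop (𝓝 τ) :=
    ((tendsto_add_atTop_iff_nat N).2 hulim).comp hφ.tendsto_atTop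
  have hnuh : HasNu h τ := hasNu_lim hlim hlimu hsnu
  refine ⟨h, hdet, hnuh, fun hP => ?_⟩
  obtain ⟨n, a, ha, hn⟩ := (iso_seq hd (det_ne_of_one hdet) (half_pos hτ)
    (HasNu.mono' hnuh (half_le_self hτ.le)) hP one_pos _ hlim hsdet hsnu').exists
  have h2 : PropInt (gs (φ n) * zR (γ (φ n))) := by rw [hn]; exact propInt_diag hP ha
  exact hg3 (φ n) (propInt_closure hd (det_ne_of_one (hsdet n)) (half_pos hτ) (hsnu' n) h2
    (subset_closure (orb_symm (mem_orb_gam _ (hγ _)))))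

end Pool.Agent.helper890_csd
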