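import Mathlib
import Pool.Agent.helper890_csd.Thresh

/-! # Limits of forms along which the infimum is preserved -/

set_option autoImplicit false

open Filter Topology Matrix

namespace Pool.Agent.helper890_csd

open H715R2 Pool.Agent.Y327 Pool.Agent.TH314.CSD

variable {d : ℕ}

/-- A sequence of forms whose infima converge to `μ > 0` has, after multiplication by diagonal
matrices and integral changes of variables, a limit with infimum equal to `μ`. -/
theorem balanced_limit (hd : 0 < d) {μ ν : ℝ} (hν : 0 < ν)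
    (gs : ℕ → Matrix (Fin d) (Fin d) ℝ) (hdet : ∀ n, |(gs n).det| = 1)
    (hnu : ∀ n, HasNu (gs n) ν) (hinf : Tendsto (fun n => nuInf (gs n)) atTop (𝓝 μ)) :
    ∃ (φ : ℕ → ℕ) (a : ℕ → Fin d → ℝ) (γ : ℕ → Matrix (Fin d) (Fin d) ℤ)
      (h : Matrix (Fin d) (Fin d) ℝ), StrictMono φ ∧ (∀ n i, 0 < a n i) ∧
      (∀ n, ∏ i, a n i = 1) ∧ (∀ n, IsUnit (γ n).det) ∧
      Tendsto (fun n => diagonal (a n) * gs (φ n) * zR (γ n)) atTop (𝓝 h) ∧ |h.det| = 1 ∧
      HasNu h μ ∧ nuInf h = μ := by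
  classical
  have hne := nonempty_ne hd
  obtain ⟨B, hB⟩ := hinf.bddAbove_range
  have hB' : ∀ n, nuInf (gs n) ≤ B := fun n => hB ⟨n, rfl⟩
  have hseq : ∀ n : ℕ, ∃ m : Fin d → ℤ, m ≠ 0 ∧
      |FF (gs n) (iR m)| < nuInf (gs n) + 1 / ((n : ℝ) + 1) := by
    intro n
    have h1 : nuInf (gs n) < nuInf (gs n) + 1 / ((n : ℝ) + 1) := by
      have : 0 < 1 / ((n : ℝ) + 1) := by positivity
      linarith
    obtain ⟨x, hx⟩ := exists_lt_of_ciInf_lt h1
    exact ⟨x.1, x.2, hx⟩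
  choose m hm0 hm1 using hseq
  have hz : ∀ n i, (gs n *ᵥ iR (m n)) i ≠ 0 := by
    intro n i hi
    have h1 := hnu n (m n) (hm0 n)
    rw [FF_eq, Finset.prod_eq_zero (Finset.mem_univ i) hi, abs_zero] at h1
    exact absurd h1 (not_le.2 hν)
  choose a ha0 ha1 ha2 using fun n => exists_balance hd (gs n *ᵥ iR (m n)) (hz n)
  obtain ⟨R, hR⟩ := exists_bound hd 1 ν one_pos hν
  have hmem1 : ∀ n, diagonal (a n) * gs n ∈ Orb (gs n) := fun n =>
    ⟨a n, 1, ha0 n, ha1 n, by simp, by rw [zR_one, Matrix.mul_one]⟩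
  choose γ hγ hγR using fun n => hR _
    ((abs_det_closure (subset_closure (hmem1 n))).trans (hdet n))
    (hasNu_closure (hnu n) (subset_closure (hmem1 n)))
  set x : ℕ → Matrix (Fin d) (Fin d) ℝ := fun n => diagonal (a n) * gs n * zR (γ n) with hx
  have hmem : ∀ n, x n ∈ Orb (gs n) := fun n => ⟨a n, γ n, ha0 n, ha1 n, hγ n, rfl⟩
  have hxdet : ∀ n, |(x n).det| = 1 := fun n =>
    (abs_det_closure (subset_closure (hmem n))).trans (hdet n)
  set k : ℕ → Fin d → ℤ := fun n => (γ n)⁻¹ *ᵥ m n with hk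
  have hk0 : ∀ n, k n ≠ 0 := fun n => vec_ne_zero (hγ n) (hm0 n)
  have hγk : ∀ n, γ n *ᵥ k n = m n := by
    intro n
    simp only [hk]
    rw [mulVec_mulVec, Matrix.mul_nonsing_inv _ (hγ n), one_mulVec]
  have hxk : ∀ n, x n *ᵥ iR (k n) = diagonal (a n) *ᵥ (gs n *ᵥ iR (m n)) := by
    intro n
    simp only [hx]
    rw [← mulVec_mulVec, zR_mulVec_iR, hγk, ← mulVec_mulVec]
  set C : ℝ := (B + 1) ^ ((1 : ℝ) / d) with hC
  have hxkC : ∀ n i, |(x n *ᵥ iR (k n)) i| ≤ C := by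
    intro n i
    rw [hxk, mulVec_diagonal, abs_mul, abs_of_pos (ha0 n i), ha2 n i]
    have h1 : ∏ i, |(gs n *ᵥ iR (m n)) i| = |FF (gs n) (iR (m n))| := by
      rw [FF_eq, Finset.abs_prod]
    rw [h1, hC]
    apply Real.rpow_le_rpow (abs_nonneg _) _ (by positivity)
    have h2 := (hm1 n).le
    have h3 : 1 / ((n : ℝ) + 1) ≤ 1 := by
      rw [div_le_one (by positivity)]
      have : (0 : ℝ) ≤ n := Nat.cast_nonneg n
      linarith
    have h4 := hB' n
    linarith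
  obtain ⟨D, hD0, hD⟩ := inv_bound (d := d) R 1 one_pos
  have hkb : ∀ n i, |iR (k n) i| ≤ ∑ _j : Fin d, D * C := by
    intro n i
    have hu : IsUnit (x n).det := isUnit_iff_ne_zero.2 (det_ne one_pos (hxdet n))
    have h1 : iR (k n) = (x n)⁻¹ *ᵥ (x n *ᵥ iR (k n)) := by
      rw [mulVec_mulVec, Matrix.nonsing_inv_mul _ hu, one_mulVec]
    rw [h1, mulVec, dotProduct]
    refine (Finset.abs_sum_le_sum_abs _ _).trans (Finset.sum_le_sum fun j _ => ?_)
    rw [abs_mul]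
    exact mul_le_mul (hD _ (hxdet n) (hγR n) i j) (hxkC n j) (abs_nonneg _) hD0
  set L : ℝ := ∑ _j : Fin d, D * C with hL
  have hcpt1 := isCompact_box (d := d) R
  obtain ⟨h, -, φ, hφ, hlim⟩ := hcpt1.tendsto_subseq hγR
  have hcpt2 : IsCompact (Set.pi Set.univ fun _ : Fin d => Set.Icc (-L) L) :=
    isCompact_univ_pi fun _ => isCompact_Icc
  obtain ⟨κ, -, ψ, hψ, hlim2⟩ := hcpt2.tendsto_subseq (x := fun n => iR (k (φ n)))
    (fun n i _ => abs_le.1 (hkb (φ n) i))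
  have hlim1 : Tendsto (fun n => x (φ (ψ n))) atTop (𝓝 h) := hlim.comp hψ.tendsto_atTop
  have hφψ : Tendsto (fun n => φ (ψ n)) atTop atTop := hφ.tendsto_atTop.comp hψ.tendsto_atTop
  obtain ⟨q, hq⟩ := limit_integral (k := fun n => k (φ (ψ n))) hlim2
  have hq0 : q ≠ 0 := by
    intro h0
    have h1 : Tendsto (fun n => iR (k (φ (ψ n)))) atTop (𝓝 0) := by
      have h2 : κ = 0 := by
        rw [hq, h0]
        funext i
        simp [iR]
      rw [← h2]
      exact hlim2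
    have h2 : ∀ᶠ n in atTop, ∀ i, |iR (k (φ (ψ n))) i| < 1 := by
      refine Filter.eventually_all.2 fun i => ?_
      have h3 := ((tendsto_pi_nhds.1 h1) i).abs
      simp only [Pi.zero_apply, abs_zero] at h3
      exact h3.eventually (gt_mem_nhds one_pos)
    obtain ⟨n, hn⟩ := h2.exists
    apply hk0 (φ (ψ n))
    funext i
    have h3 := hn i
    simp only [iR] at h3
    have h4 : |k (φ (ψ n)) i| < 1 := by exact_mod_cast h3
    exact Int.abs_lt_one_iff.1 h4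
  have hcont : Continuous (fun p : Matrix (Fin d) (Fin d) ℝ × (Fin d → ℝ) => FF p.1 p.2) := by
    unfold FF
    refine continuous_finsetProd _ fun i _ => continuous_finsetSum _ fun j _ => ?_
    exact ((continuous_apply_apply i j).comp continuous_fst).mul
      ((continuous_apply j).comp continuous_snd)
  have hval : Tendsto (fun n => |FF (x (φ (ψ n))) (iR (k (φ (ψ n))))|) atTop
      (𝓝 |FF h (iR q)|) := by
    have h1 := (hcont.tendsto (h, κ)).comp (hlim1.prodMk_nhds hlim2)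
    rw [← hq]
    exact h1.abs
  have hval2 : ∀ n, |FF (x n) (iR (k n))| = |FF (gs n) (iR (m n))| := by
    intro n
    simp only [hx]
    rw [FF_orb (ha1 n), hγk]
  have hle : |FF h (iR q)| ≤ μ := by
    have h1 : Tendsto (fun n : ℕ => nuInf (gs (φ (ψ n))) + 1 / (((φ (ψ n) : ℕ) : ℝ) + 1)) atTop
        (𝓝 (μ + 0)) := by
      refine (hinf.comp hφψ).add ?_
      exact (tendsto_one_div_add_atTop_nhds_zero_nat).comp hφψ
    rw [add_zero] at h1
    refine le_of_tendsto_of_tendsto' hval h1 fun n => ?_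
    rw [hval2]
    exact (hm1 _).le
  have hnuh : HasNu h μ := hasNu_lim hlim1 (hinf.comp hφψ) fun n =>
    hasNu_closure (hasNu_nuInf (gs (φ (ψ n)))) (subset_closure (hmem _))
  have hdeth : |h.det| = 1 := by
    have h1 : Tendsto (fun n => |(x (φ (ψ n))).det|) atTop (𝓝 |h.det|) :=
      ((continuous_abs.comp continuous_det').tendsto h).comp hlim1
    simp only [hxdet] at h1
    exact tendsto_nhds_unique h1 tendsto_const_nhds |>.symm ▸ rfl
  refine ⟨fun n => φ (ψ n), fun n => a (φ (ψ n)), fun n => γ (φ (ψ n)), h, hφ.comp hψ,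
    fun n => ha0 _, fun n => ha1 _, fun n => hγ _, hlim1, hdeth, hnuh, ?_⟩
  exact le_antisymm ((ciInf_le (nuInf_bdd h) ⟨q, hq0⟩).trans hle) (le_nuInf hd hnuh)

/-- integrality of forms in an orbit -/
lemma propInt_of_orb (hd : 3 ≤ d) {g h : Matrix (Fin d) (Fin d) ℝ} (hg : g.det ≠ 0) {ν : ℝ}
    (hν : 0 < ν) (hnu : HasNu g ν) (hh : h ∈ Orb g) (hP : PropInt h) : PropInt g := by
  have h3 : h.det ≠ 0 := by
    rw [← abs_ne_zero, abs_det_closure (subset_closure hh), abs_ne_zero]; exact hg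
  exact propInt_closure hd h3 hν (hasNu_closure hnu (subset_closure hh)) hP
    (subset_closure (orb_symm hh))

/-- **The values of non-integral forms are closed.** -/
theorem closed_seq (hd : 3 ≤ d) {μ ν : ℝ} (hν : 0 < ν)
    (gs : ℕ → Matrix (Fin d) (Fin d) ℝ) (hdet : ∀ n, |(gs n).det| = 1)
    (hnu : ∀ n, HasNu (gs n) ν) (hinf : Tendsto (fun n => nuInf (gs n)) atTop (𝓝 μ))
    (hint : ∀ n, ¬ PropInt (gs n)) :
    ∃ h : Matrix (Fin d) (Fin d) ℝ, |h.det| = 1 ∧ nuInf h = μ ∧ ¬ PropInt h := by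
  obtain ⟨φ, a, γ, h, hφ, ha0, ha1, hγ, hlim, hdeth, hnuh, hinfh⟩ :=
    balanced_limit (by omega) hν gs hdet hnu hinf
  refine ⟨h, hdeth, hinfh, fun hP => ?_⟩
  have hmem : ∀ n, diagonal (a n) * gs (φ n) * zR (γ n) ∈ Orb (gs (φ n)) := fun n =>
    ⟨a n, γ n, ha0 n, ha1 n, hγ n, rfl⟩
  have hνμ : ν ≤ μ := ge_of_tendsto' hinf fun n => le_nuInf (by omega) (hnu n)
  obtain ⟨n, b, hb, hn⟩ := (iso_seq hd (det_ne_of_one hdeth) hν (HasNu.mono' hnuh hνμ) hP
    one_pos _ hlim (fun n => (abs_det_closure (subset_closure (hmem n))).trans (hdet _))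
    (fun n => hasNu_closure (hnu _) (subset_closure (hmem n)))).exists
  exact hint (φ n) (propInt_of_orb hd (det_ne_of_one (hdet _)) hν (hnu _) (hmem n)
    (by rw [hn]; exact propInt_diag hP hb))

lemma eqv_of_orb {g h : Matrix (Fin d) (Fin d) ℝ} {γ : Matrix (Fin d) (Fin d) ℤ}
    (hγ : IsUnit γ.det) {a b : Fin d → ℝ} (ha : ∀ i, 0 < a i) (hb : ∀ i, b i ≠ 0)
    (heq : diagonal a * g * zR γ = diagonal b * h) : Eqv g h := by
  refine eqv_of_gam (a := fun i => (a i)⁻¹ * b i) hγ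
    (fun i => mul_ne_zero (inv_ne_zero (ha i).ne') (hb i)) ?_
  have h1 : diagonal (fun i => (a i)⁻¹) * diagonal a = (1 : Matrix (Fin d) (Fin d) ℝ) := by
    rw [diagonal_mul_diagonal, ← diagonal_one]
    congr 1
    funext i
    exact inv_mul_cancel₀ (ha i).ne'
  calc g * zR γ = (diagonal (fun i => (a i)⁻¹) * diagonal a) * (g * zR γ) := by
        rw [h1, Matrix.one_mul]
    _ = diagonal (fun i => (a i)⁻¹) * (diagonal a * g * zR γ) := by
        simp only [Matrix.mul_assoc]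
    _ = diagonal (fun i => (a i)⁻¹ * b i) * h := by
        rw [heq, ← Matrix.mul_assoc, diagonal_mul_diagonal]

/-- **Finiteness off the values of non-integral forms.** -/
theorem finite_off (hd : 3 ≤ d) {K : Set ℝ} (hK : IsCompact K) {ν : ℝ} (hν : 0 < ν)
    (hKν : ∀ t ∈ K, ν ≤ t)
    (hall : ∀ g : Matrix (Fin d) (Fin d) ℝ, |g.det| = 1 → nuInf g ∈ K → PropInt g) :
    ∃ H : Finset (Matrix (Fin d) (Fin d) ℝ), (∀ h ∈ H, |h.det| = 1 ∧ nuInf h ∈ K) ∧
      ∀ g : Matrix (Fin d) (Fin d) ℝ, |g.det| = 1 → nuInf g ∈ K → ∃ h ∈ H, Eqv g h := by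
  classical
  have hd0 : 0 < d := by omega
  by_contra hcon
  push Not at hcon
  obtain ⟨f, hf1, hf2⟩ := exists_seq_of_forall_finset_exists
    (fun g : Matrix (Fin d) (Fin d) ℝ => |g.det| = 1 ∧ nuInf g ∈ K)
    (fun x y => ¬ Eqv y x) (fun s hs => by
      obtain ⟨g, hg1, hg2, hg3⟩ := hcon s hs
      exact ⟨g, ⟨hg1, hg2⟩, hg3⟩)
  obtain ⟨μ, hμK, ρ, hρ, hμ⟩ := hK.tendsto_subseq (x := fun n => nuInf (f n))
    (fun n => (hf1 n).2)
  have hnu : ∀ n, HasNu (f n) ν := fun n => HasNu.mono' (hasNu_nuInf (f n)) (hKν _ (hf1 n).2)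
  obtain ⟨φ, a, γ, h, hφ, ha0, ha1, hγ, hlim, hdeth, hnuh, hinfh⟩ :=
    balanced_limit hd0 hν (fun n => f (ρ n)) (fun n => (hf1 _).1) (fun n => hnu _) hμ
  have hmem : ∀ n, diagonal (a n) * f (ρ (φ n)) * zR (γ n) ∈ Orb (f (ρ (φ n))) := fun n =>
    ⟨a n, γ n, ha0 n, ha1 n, hγ n, rfl⟩
  have hP := hall h hdeth (by rw [hinfh]; exact hμK)
  obtain ⟨n₀, hn₀⟩ := eventually_atTop.1
    (iso_seq hd (det_ne_of_one hdeth) hν (HasNu.mono' hnuh (hKν _ hμK)) hP one_pos _ hlim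
      (fun n => (abs_det_closure (subset_closure (hmem n))).trans (hf1 _).1)
      (fun n => hasNu_closure (hnu _) (subset_closure (hmem n))))
  obtain ⟨b, hb, h1⟩ := hn₀ n₀ le_rfl
  obtain ⟨c, hc, h2⟩ := hn₀ (n₀ + 1) (Nat.le_succ _)
  have h3 := eqv_of_orb (hγ _) (ha0 _) hb h1
  have h4 := eqv_of_orb (hγ _) (ha0 _) hc h2
  exact hf2 (ρ (φ n₀)) (ρ (φ (n₀ + 1))) (hρ (hφ (Nat.lt_succ_self _))) (h4.trans h3.symm)

end Pool.Agent.helper890_csd
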