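import Mathlib
import Pool.Agent.helper890_csd.Spec
import Pool.Agent.H905R2.OppD
import Pool.Agent.Y327.Unique

/-! # Finitely many systems of planes -/

set_option autoImplicit false

open Filter Topology Matrix

namespace Pool.Agent.helper890_csd

open H715R2 Pool.Agent.Y327 Pool.Agent.TH314.CSD

variable {d : ℕ}

/-- a form with an irreducible RS-matrix is proportional to an integral form -/
theorem propInt_of_mat (hd : 3 ≤ d) {g : Matrix (Fin d) (Fin d) ℝ} (hg : g.det ≠ 0) {ν : ℝ}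
    (hν : 0 < ν) (hnu : HasNu g ν) {A : Matrix (Fin d) (Fin d) ℤ}
    (hirr : Irreducible (A.charpoly.map (Int.castRingHom ℚ)))
    (hinv : ∀ i : Fin d, ∀ x : Fin d → ℝ, ∑ j, g i j * x j = 0 →
      ∑ j, g i j * ((A.map (Int.cast : ℤ → ℝ)).mulVec x) j = 0) : PropInt g := by
  obtain ⟨lam, hlam, hAg⟩ := eig_of_opp hg hirr hinv
  obtain ⟨K', hfin, hrank, s, hs, hmem⟩ := exists_alg_row hg A lam hlam hAg ⟨0, by omega⟩
  rcases limit_alg hd hg (subset_closure (mem_orb_self g)) ⟨0, by omega⟩ s hs K' hrank hmem with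
    h2 | h2 | h2
  · obtain ⟨x, hx, hx0⟩ := h2
    have h3 := hnu x hx
    have h4 : (g.mulVec (iR x)) ⟨0, by omega⟩ = 0 := hx0
    rw [FF_eq, Finset.prod_eq_zero (Finset.mem_univ _) h4, abs_zero] at h3
    exact absurd h3 (not_le.2 hν)
  · exact h2
  · obtain ⟨x, hx, hx1⟩ := dense_ne (by omega) h2 0 ν hν
    rw [sub_zero] at hx1
    exact absurd (hnu x hx) (not_le.2 hx1)

/-- the rows of `g` are nonzero multiples of the rows of `h` -/
def SamePl (g h : Matrix (Fin d) (Fin d) ℝ) : Prop :=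
  ∃ a : Fin d → ℝ, (∀ i, a i ≠ 0) ∧ g = diagonal a * h

lemma diag_inv_mul {a : Fin d → ℝ} (ha : ∀ i, a i ≠ 0) :
    diagonal (fun i => (a i)⁻¹) * diagonal a = (1 : Matrix (Fin d) (Fin d) ℝ) := by
  rw [diagonal_mul_diagonal, ← diagonal_one]
  congr 1
  funext i
  exact inv_mul_cancel₀ (ha i)

lemma SamePl.symm {g h : Matrix (Fin d) (Fin d) ℝ} (hgh : SamePl g h) : SamePl h g := by
  obtain ⟨a, ha, rfl⟩ := hgh
  refine ⟨fun i => (a i)⁻¹, fun i => inv_ne_zero (ha i), ?_⟩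
  rw [← Matrix.mul_assoc, diag_inv_mul ha, Matrix.one_mul]

lemma SamePl.trans {g h k : Matrix (Fin d) (Fin d) ℝ} (hgh : SamePl g h) (hhk : SamePl h k) :
    SamePl g k := by
  obtain ⟨a, ha, rfl⟩ := hgh
  obtain ⟨b, hb, rfl⟩ := hhk
  refine ⟨fun i => a i * b i, fun i => mul_ne_zero (ha i) (hb i), ?_⟩
  rw [← Matrix.mul_assoc, diagonal_mul_diagonal]

lemma SamePl.mul {g h : Matrix (Fin d) (Fin d) ℝ} (hgh : SamePl g h)
    (k : Matrix (Fin d) (Fin d) ℝ) : SamePl (g * k) (h * k) := by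
  obtain ⟨a, ha, rfl⟩ := hgh
  exact ⟨a, ha, by rw [Matrix.mul_assoc]⟩

lemma SamePl.refl (g : Matrix (Fin d) (Fin d) ℝ) : SamePl g g :=
  ⟨fun _ => 1, fun _ => one_ne_zero, by rw [diagonal_one, Matrix.one_mul]⟩

/-- the rows of `g ∘ γ` are nonzero multiples of the rows of `h` -/
def REqv (g h : Matrix (Fin d) (Fin d) ℝ) : Prop :=
  ∃ γ : Matrix (Fin d) (Fin d) ℤ, IsUnit γ.det ∧ SamePl (g * zR γ) h

lemma REqv.symm {g h : Matrix (Fin d) (Fin d) ℝ} (hgh : REqv g h) : REqv h g := by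
  obtain ⟨γ, hγ, hg⟩ := hgh
  refine ⟨γ⁻¹, Matrix.isUnit_nonsing_inv_det _ hγ, ?_⟩
  have h1 := (hg.symm).mul (zR γ⁻¹)
  rwa [Matrix.mul_assoc, zR_inv hγ, Matrix.mul_one] at h1

lemma REqv.trans {g h k : Matrix (Fin d) (Fin d) ℝ} (hgh : REqv g h) (hhk : REqv h k) :
    REqv g k := by
  obtain ⟨γ, hγ, h1⟩ := hgh
  obtain ⟨γ', hγ', h2⟩ := hhk
  refine ⟨γ * γ', ?_, ?_⟩
  · rw [det_mul]; exact hγ.mul hγ'
  · have h3 := (h1.mul (zR γ')).trans h2
    rwa [Matrix.mul_assoc, ← zR_mul] at h3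

lemma SamePl.reqv {g h : Matrix (Fin d) (Fin d) ℝ} (hgh : SamePl g h) : REqv g h :=
  ⟨1, by simp, by rw [zR_one, Matrix.mul_one]; exact hgh⟩

lemma REqv.eqv {g h : Matrix (Fin d) (Fin d) ℝ} (hgh : REqv g h) : Eqv g h := by
  obtain ⟨γ, hγ, a, ha, h1⟩ := hgh
  exact eqv_of_gam hγ ha h1

lemma reqv_of_orb {g h : Matrix (Fin d) (Fin d) ℝ} {γ : Matrix (Fin d) (Fin d) ℤ}
    (hγ : IsUnit γ.det) {a b : Fin d → ℝ} (ha : ∀ i, 0 < a i) (hb : ∀ i, b i ≠ 0)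
    (heq : diagonal a * g * zR γ = diagonal b * h) : REqv g h := by
  refine ⟨γ, hγ, ?_⟩
  have h1 : SamePl (g * zR γ) (diagonal a * g * zR γ) := by
    refine SamePl.symm ⟨a, fun i => (ha i).ne', by rw [Matrix.mul_assoc]⟩
  exact h1.trans ⟨b, hb, heq⟩

/-- **Finiteness off the values of non-integral forms.** -/
theorem finite_off' (hd : 3 ≤ d) {K : Set ℝ} (hK : IsCompact K) {ν : ℝ} (hν : 0 < ν)
    (hKν : ∀ t ∈ K, ν ≤ t)
    (hall : ∀ g : Matrix (Fin d) (Fin d) ℝ, |g.det| = 1 → nuInf g ∈ K → PropInt g) :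
    ∃ H : Finset (Matrix (Fin d) (Fin d) ℝ), (∀ h ∈ H, |h.det| = 1 ∧ nuInf h ∈ K) ∧
      ∀ g : Matrix (Fin d) (Fin d) ℝ, |g.det| = 1 → nuInf g ∈ K → ∃ h ∈ H, REqv g h := by
  classical
  have hd0 : 0 < d := by omega
  by_contra hcon
  push Not at hcon
  obtain ⟨f, hf1, hf2⟩ := exists_seq_of_forall_finset_exists
    (fun g : Matrix (Fin d) (Fin d) ℝ => |g.det| = 1 ∧ nuInf g ∈ K)
    (fun x y => ¬ REqv y x) (fun s hs => by
      obtain ⟨g, hg1, hg2, hg3⟩ := hcon s hs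
      exact ⟨g, ⟨hg1, hg2⟩, hg3⟩)
  obtain ⟨μ, hμK, ρ, hρ, hμ⟩ := hK.tendsto_subseq (x := fun n => nuInf (f n))
    (fun n => (hf1 n).2)
  have hnu : ∀ n, HasNu (f n) ν := fun n => HasNu.mono' (hasNu_nuInf (f n)) (hKν _ (hf1 n).2)
  obtain ⟨φ, a, γ, h, hφ, ha0, ha1, hγ, hlim, hdeth, hnuh, hinfh⟩ :=
    balanced_limit hd0 hν (fun n => f (ρ n)) (fun n => (hf1 _).1) (fun n => hnu _) hμ
  have hmem : ∀ n, diagonal (a n) * f (ρ (φ n)) * zR (γ n) ∈ Orb (f (ρ (φ n))) := fun n =>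
    ⟨a n, γ n, ha0 n, ha1 n, hγ n, rfl⟩
  have hP := hall h hdeth (by rw [hinfh]; exact hμK)
  obtain ⟨n₀, hn₀⟩ := eventually_atTop.1
    (iso_seq hd (det_ne_of_one hdeth) hν (HasNu.mono' hnuh (hKν _ hμK)) hP one_pos _ hlim
      (fun n => (abs_det_closure (subset_closure (hmem n))).trans (hf1 _).1)
      (fun n => hasNu_closure (hnu _) (subset_closure (hmem n))))
  obtain ⟨b, hb, h1⟩ := hn₀ n₀ le_rfl
  obtain ⟨c, hc, h2⟩ := hn₀ (n₀ + 1) (Nat.le_succ _)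
  have h3 := reqv_of_orb (hγ _) (ha0 _) hb h1
  have h4 := reqv_of_orb (hγ _) (ha0 _) hc h2
  exact hf2 (ρ (φ n₀)) (ρ (φ (n₀ + 1))) (hρ (hφ (Nat.lt_succ_self _))) (h4.trans h3.symm)

/-- finitely many systems of planes in a bounded part of the orbit of an integral form -/
theorem finite_orb (hd : 3 ≤ d) {h : Matrix (Fin d) (Fin d) ℝ} (hh : |h.det| = 1) {ν : ℝ}
    (hν : 0 < ν) (hnu : HasNu h ν) (hP : PropInt h) (B : ℝ) :
    ∃ H : Finset (Matrix (Fin d) (Fin d) ℝ), (∀ g ∈ H, g ∈ Orb h) ∧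
      ∀ g ∈ Orb h, (∀ i j, |g i j| ≤ B) → ∃ k ∈ H, SamePl g k := by
  classical
  have hd0 : 0 < d := by omega
  by_contra hcon
  push Not at hcon
  obtain ⟨f, hf1, hf2⟩ := exists_seq_of_forall_finset_exists
    (fun g : Matrix (Fin d) (Fin d) ℝ => g ∈ Orb h ∧ ∀ i j, |g i j| ≤ B)
    (fun x y => ¬ SamePl y x) (fun s hs => by
      obtain ⟨g, hg1, hg2, hg3⟩ := hcon s (fun g hg => (hs g hg).1)
      exact ⟨g, ⟨hg1, hg2⟩, hg3⟩)
  have hdet : ∀ n, |(f n).det| = 1 := fun n =>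
    (abs_det_closure (subset_closure (hf1 n).1)).trans hh
  have hfnu : ∀ n, HasNu (f n) ν := fun n => hasNu_closure hnu (subset_closure (hf1 n).1)
  obtain ⟨k, -, φ, hφ, hlim⟩ := (isCompact_box (d := d) B).tendsto_subseq
    (x := f) (fun n => (hf1 n).2)
  have hk : k ∈ closure (Orb h) :=
    mem_closure_of_tendsto hlim (Eventually.of_forall fun n => (hf1 (φ n)).1)
  have hkdet : |k.det| = 1 := (abs_det_closure hk).trans hh
  have hkP : PropInt k := propInt_closure hd (det_ne_of_one hh) hν hnu hP hk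
  obtain ⟨n₀, hn₀⟩ := eventually_atTop.1
    (iso_seq hd (det_ne_of_one hkdet) hν (hasNu_closure hnu hk) hkP one_pos _ hlim
      (fun n => hdet _) (fun n => hfnu _))
  have h3 : SamePl (f (φ n₀)) k := hn₀ n₀ le_rfl
  have h4 : SamePl (f (φ (n₀ + 1))) k := hn₀ (n₀ + 1) (Nat.le_succ _)
  exact hf2 (φ n₀) (φ (n₀ + 1)) (hφ (Nat.lt_succ_self _)) (h4.trans h3.symm)

/-- a matrix with the same planes as `g`, absolute determinant one and bounded rows -/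
lemma exists_scaled (hd : 0 < d) {g : Matrix (Fin d) (Fin d) ℝ} (hg : g.det ≠ 0) {B : ℝ}
    (hB : ∏ i, ‖g i‖ ≤ B * |g.det|) :
    ∃ g' : Matrix (Fin d) (Fin d) ℝ, SamePl g g' ∧ |g'.det| = 1 ∧
      ∀ i j, |g' i j| ≤ B ^ ((1 : ℝ) / d) := by
  have hrow : ∀ i, 0 < ‖g i‖ := by
    intro i
    rw [norm_pos_iff]
    intro h0
    exact hg (Matrix.det_eq_zero_of_row_eq_zero i fun j => congrFun h0 j)
  have hdet0 : 0 < |g.det| := abs_pos.2 hg
  set P : ℝ := ∏ i, ‖g i‖ with hP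
  have hP0 : 0 < P := Finset.prod_pos fun i _ => hrow i
  set s : ℝ := (P / |g.det|) ^ ((1 : ℝ) / d) with hs
  have hs0 : 0 < s := Real.rpow_pos_of_pos (div_pos hP0 hdet0) _
  have hsd : s ^ d = P / |g.det| := by
    rw [hs, ← Real.rpow_natCast, ← Real.rpow_mul (div_pos hP0 hdet0).le, one_div,
      inv_mul_cancel₀ (by exact_mod_cast hd.ne'), Real.rpow_one]
  set a : Fin d → ℝ := fun i => s / ‖g i‖ with ha
  have ha0 : ∀ i, 0 < a i := fun i => div_pos hs0 (hrow i)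
  have hprod : ∏ i, a i = |g.det|⁻¹ := by
    simp only [ha]
    rw [Finset.prod_div_distrib, Finset.prod_const, Finset.card_univ, Fintype.card_fin, hsd, ← hP]
    rw [div_div, mul_comm, ← div_div, div_self hP0.ne', one_div]
  refine ⟨diagonal a * g, SamePl.symm ⟨a, fun i => (ha0 i).ne', rfl⟩, ?_, fun i j => ?_⟩
  · rw [det_mul, det_diagonal, hprod, abs_mul, abs_inv, abs_abs, inv_mul_cancel₀ hdet0.ne']
  · rw [diagonal_mul, abs_mul, abs_of_pos (ha0 i)]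
    have h1 : |g i j| ≤ ‖g i‖ := by
      have := norm_le_pi_norm (g i) j
      rwa [Real.norm_eq_abs] at this
    have h2 : a i * |g i j| ≤ s := by
      simp only [ha]
      rw [div_mul_eq_mul_div, div_le_iff₀ (hrow i)]
      exact mul_le_mul_of_nonneg_left h1 hs0.le
    refine h2.trans ?_
    rw [hs]
    refine Real.rpow_le_rpow (div_pos hP0 hdet0).le ?_ (by positivity)
    rw [div_le_iff₀ hdet0]
    exact hB

/-- every class contains a matrix with bounded rows -/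
lemma exists_reduced (hd : 0 < d) {ν : ℝ} (hν : 0 < ν) :
    ∃ B : ℝ, 0 < B ∧ ∀ g : Matrix (Fin d) (Fin d) ℝ, g.det ≠ 0 → ν ≤ nb g →
      ∃ γ : Matrix (Fin d) (Fin d) ℤ, IsUnit γ.det ∧
        ∏ i, ‖(g * zR γ) i‖ ≤ B * |(g * zR γ).det| := by
  obtain ⟨R, hR⟩ := exists_bound hd 1 ν one_pos hν
  refine ⟨(max R 1) ^ d, by positivity, fun g hg hgν => ?_⟩
  obtain ⟨γ, hγ, hb⟩ := hR (Nm ⟨0, hd⟩ g) (det_Nm _ hg) (hasNu_Nm _ hg hgν)
  refine ⟨γ, hγ, ?_⟩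
  have h0 : 0 < |g.det| := abs_pos.2 hg
  set u : Fin d → ℝ := Function.update (fun _ => (1 : ℝ)) (⟨0, hd⟩ : Fin d) |g.det|⁻¹ with hu
  have hu1 : ∏ i, |u i| = |g.det|⁻¹ := by
    rw [← Finset.abs_prod, hu, prod_upd, abs_inv, abs_abs]
  have hN : Nm ⟨0, hd⟩ g * zR γ = diagonal u * (g * zR γ) := by
    rw [Nm, Matrix.mul_assoc]
  have hrow : ∀ i, |u i| * ‖(g * zR γ) i‖ ≤ max R 1 := by
    intro i
    have h1 : (fun j => (Nm ⟨0, hd⟩ g * zR γ) i j) = u i • (g * zR γ) i := by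
      funext j
      rw [hN, diagonal_mul]
      rfl
    have h2 : |u i| * ‖(g * zR γ) i‖ = ‖fun j => (Nm ⟨0, hd⟩ g * zR γ) i j‖ := by
      rw [h1, norm_smul, Real.norm_eq_abs]
    rw [h2]
    refine (pi_norm_le_iff_of_nonneg (by positivity)).2 fun j => ?_
    rw [Real.norm_eq_abs]
    exact (hb i j).trans (le_max_left _ _)
  have hprod : ∏ i, (|u i| * ‖(g * zR γ) i‖) ≤ (max R 1) ^ d := by
    have h1 := Finset.prod_le_prod (s := (Finset.univ : Finset (Fin d)))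
      (f := fun i => |u i| * ‖(g * zR γ) i‖) (g := fun _ => max R 1)
      (fun i _ => by positivity) (fun i _ => hrow i)
    simpa using h1
  rw [Finset.prod_mul_distrib, hu1] at hprod
  have h3 : |(g * zR γ).det| = |g.det| := by
    rw [det_mul, abs_mul, det_zR, abs_det_of_isUnit hγ, mul_one]
  rw [h3]
  rw [inv_mul_le_iff₀ h0] at hprod
  linarith [mul_comm |g.det| ((max R 1) ^ d)]

lemma nuInf_diag (a : Fin d → ℝ) (g : Matrix (Fin d) (Fin d) ℝ) :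
    nuInf (diagonal a * g) = |∏ i, a i| * nuInf g := by
  rw [nuInf, nuInf, Real.mul_iInf_of_nonneg (abs_nonneg _)]
  congr 1
  funext x
  rw [FF_diag, abs_mul]

lemma SamePl.nb_eq {g h : Matrix (Fin d) (Fin d) ℝ} (hgh : SamePl g h) : nb g = nb h := by
  obtain ⟨a, ha, rfl⟩ := hgh
  have hA : |∏ i, a i| ≠ 0 := abs_ne_zero.2 (Finset.prod_ne_zero_iff.2 fun i _ => ha i)
  rw [nb, nb, nuInf_diag, det_mul, det_diagonal, abs_mul, mul_div_mul_left _ _ hA]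

lemma nb_of_one {g : Matrix (Fin d) (Fin d) ℝ} (hdet : |g.det| = 1) : nb g = nuInf g := by
  rw [nb, hdet, div_one]

lemma nuInf_orb (hd : 0 < d) {g h : Matrix (Fin d) (Fin d) ℝ} (hg : g ∈ Orb h) :
    nuInf g = nuInf h :=
  le_antisymm (le_nuInf hd (hasNu_closure (hasNu_nuInf g) (subset_closure (orb_symm hg))))
    (le_nuInf hd (hasNu_closure (hasNu_nuInf h) (subset_closure hg)))

/-- the signs of the rows can be changed so that a matrix equivalent to `h` lies in the orbit -/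
lemma exists_orb_of_reqv {g h : Matrix (Fin d) (Fin d) ℝ} (hg : |g.det| = 1) (hh : |h.det| = 1)
    (hgh : REqv g h) : ∃ g' ∈ Orb h, SamePl g g' ∧ ∀ i j, |g' i j| = |g i j| := by
  obtain ⟨γ, hγ, b, hb, heq⟩ := hgh
  set s : Fin d → ℝ := fun i => b i / |b i| with hs
  have hs1 : ∀ i, |s i| = 1 := by
    intro i
    simp only [hs]
    rw [abs_div, abs_abs, div_self (abs_ne_zero.2 (hb i))]
  have hs0 : ∀ i, s i ≠ 0 := fun i => by
    rw [← abs_ne_zero, hs1]; exact one_ne_zero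
  have hsb : ∀ i, s i * b i = |b i| := by
    intro i
    simp only [hs]
    rw [div_mul_eq_mul_div, div_eq_iff (abs_ne_zero.2 (hb i)), abs_mul_abs_self]
  refine ⟨diagonal s * g, ?_, SamePl.symm ⟨s, hs0, rfl⟩, fun i j => ?_⟩
  · refine ⟨fun i => |b i|, γ⁻¹, fun i => abs_pos.2 (hb i), ?_,
      Matrix.isUnit_nonsing_inv_det _ hγ, ?_⟩
    · have h1 := congrArg (fun M : Matrix (Fin d) (Fin d) ℝ => |M.det|) heq
      simp only [det_mul, det_diagonal, abs_mul] at h1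
      rw [det_zR, abs_det_of_isUnit hγ, hg, hh, mul_one, mul_one, Finset.abs_prod] at h1
      exact h1.symm
    · have h2 : diagonal (fun i => |b i|) = diagonal s * (diagonal b : Matrix (Fin d) (Fin d) ℝ) := by
        rw [diagonal_mul_diagonal]
        congr 1
        funext i
        exact (hsb i).symm
      rw [h2, Matrix.mul_assoc (diagonal s), ← heq, Matrix.mul_assoc, Matrix.mul_assoc, zR_inv hγ,
        Matrix.mul_one]
  · rw [diagonal_mul, abs_mul, hs1, one_mul]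

/-- **Finitely many systems of planes.** -/
theorem finite_planes (hd : 3 ≤ d) {K : Set ℝ} (hK : IsCompact K) {ν : ℝ} (hν : 0 < ν)
    (hKν : ∀ t ∈ K, ν ≤ t)
    (hall : ∀ g : Matrix (Fin d) (Fin d) ℝ, |g.det| = 1 → nuInf g ∈ K → PropInt g) (B : ℝ) :
    ∃ H : Finset (Matrix (Fin d) (Fin d) ℝ), (∀ h ∈ H, |h.det| = 1 ∧ nuInf h ∈ K) ∧
      ∀ g : Matrix (Fin d) (Fin d) ℝ, g.det ≠ 0 → nb g ∈ K → ∏ i, ‖g i‖ ≤ B * |g.det| →
        ∃ h ∈ H, SamePl g h := by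
  classical
  have hd0 : 0 < d := by omega
  obtain ⟨H₀, hH1, hH2⟩ := finite_off' hd hK hν hKν hall
  have hfin : ∀ h : Matrix (Fin d) (Fin d) ℝ, ∃ H : Finset (Matrix (Fin d) (Fin d) ℝ),
      h ∈ H₀ → (∀ g ∈ H, g ∈ Orb h) ∧
        ∀ g ∈ Orb h, (∀ i j, |g i j| ≤ B ^ ((1 : ℝ) / d)) → ∃ k ∈ H, SamePl g k := by
    intro h
    by_cases hh : h ∈ H₀
    · obtain ⟨h1, h2⟩ := hH1 h hh
      obtain ⟨H, hH⟩ := finite_orb hd h1 hν (HasNu.mono' (hasNu_nuInf h) (hKν _ h2))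
        (hall h h1 h2) (B ^ ((1 : ℝ) / d))
      exact ⟨H, fun _ => hH⟩
    · exact ⟨∅, fun h => absurd h hh⟩
  choose Hf hHf using hfin
  refine ⟨H₀.biUnion Hf, fun k hk => ?_, fun g hg hgK hgB => ?_⟩
  · obtain ⟨h, hh, hk⟩ := Finset.mem_biUnion.1 hk
    have hkO := (hHf h hh).1 k hk
    exact ⟨(abs_det_closure (subset_closure hkO)).trans (hH1 h hh).1,
      by rw [nuInf_orb hd0 hkO]; exact (hH1 h hh).2⟩
  · obtain ⟨g', hgg', hdet', hent⟩ := exists_scaled hd0 hg hgB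
    have h1 : nuInf g' ∈ K := by rw [← nb_of_one hdet', ← hgg'.nb_eq]; exact hgK
    obtain ⟨h, hh, hgh⟩ := hH2 g' hdet' h1
    obtain ⟨g'', hg'', hS, hent'⟩ := exists_orb_of_reqv hdet' (hH1 h hh).1 hgh
    obtain ⟨k, hk, hk2⟩ := (hHf h hh).2 g'' hg'' (fun i j => by rw [hent']; exact hent i j)
    exact ⟨k, Finset.mem_biUnion.2 ⟨h, hh, hk⟩, (hgg'.trans hS).trans hk2⟩

end Pool.Agent.helper890_csd
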