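import Mathlib
import Pool.Agent.helper890_csd.Planes

/-! # The values of the non-integral forms; finite sets of matrices -/

set_option autoImplicit false

open Filter Topology Matrix

namespace Pool.Agent.helper890_csd

open H715R2 Pool.Agent.Y327 Pool.Agent.TH314.CSD

variable {d : ℕ}

/-- the positive values of the non-integral forms of absolute determinant one -/
def NV (d : ℕ) : Set ℝ :=
  {t | 0 < t ∧ ∃ g : Matrix (Fin d) (Fin d) ℝ, |g.det| = 1 ∧ ¬ PropInt g ∧ nuInf g = t}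

lemma nb_Nm' (i₀ : Fin d) (g : Matrix (Fin d) (Fin d) ℝ) : nuInf (Nm i₀ g) = nb g := by
  rw [nb, nuInf, nuInf, div_eq_inv_mul, Real.mul_iInf_of_nonneg (inv_nonneg.2 (abs_nonneg _))]
  congr 1
  funext x
  rw [FF_Nm, abs_mul, abs_inv, abs_abs]

lemma nb_nonneg' (hd : 0 < d) (g : Matrix (Fin d) (Fin d) ℝ) : 0 ≤ nb g := by
  have := nonempty_ne hd
  exact div_nonneg (le_ciInf fun x => abs_nonneg _) (abs_nonneg _)

lemma hasNu_of_nb {g : Matrix (Fin d) (Fin d) ℝ} (hg : g.det ≠ 0) {ν : ℝ} (h : ν ≤ nb g) :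
    HasNu g (ν * |g.det|) := by
  intro x hx
  have h0 : 0 < |g.det| := abs_pos.2 hg
  rw [nb, le_div_iff₀ h0] at h
  exact h.trans (hasNu_nuInf g x hx)

lemma mem_NV (hd : 0 < d) {t : ℝ} : t ∈ NV d ↔
    0 < t ∧ ∃ g : Matrix (Fin d) (Fin d) ℝ, g.det ≠ 0 ∧ ¬ PropInt g ∧ nb g = t := by
  constructor
  · rintro ⟨ht, g, hg, hint, hgt⟩
    exact ⟨ht, g, det_ne_of_one hg, hint, by rw [nb_of_one hg, hgt]⟩
  · rintro ⟨ht, g, hg, hint, hgt⟩
    exact ⟨ht, Nm ⟨0, hd⟩ g, det_Nm _ hg, fun hP => hint (propInt_of_Nm ⟨0, hd⟩ hg hP),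
      by rw [nb_Nm', hgt]⟩

lemma NV_le (hd : 0 < d) {t : ℝ} (ht : t ∈ NV d) : t ≤ (d.factorial : ℝ) / (d : ℝ) ^ d := by
  obtain ⟨-, g, hg, hint, hgt⟩ := ht
  exact lev_le hd (Or.inr ⟨g, hg, by rw [← hgt]; exact hasNu_nuInf g, hint⟩)

/-- Minkowski's bound -/
lemma nb_le (hd : 0 < d) {g : Matrix (Fin d) (Fin d) ℝ} (hg : g.det ≠ 0) :
    nb g ≤ (d.factorial : ℝ) / (d : ℝ) ^ d := by
  have hdd : (0 : ℝ) < (d : ℝ) ^ d := by
    have : (0 : ℝ) < d := by exact_mod_cast hd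
    positivity
  refine le_of_forall_gt_imp_ge_of_dense fun T hT => ?_
  obtain ⟨m, hm, hm2⟩ := mink_prod hd 1 T one_pos (by
    rw [mul_one]
    rw [div_lt_iff₀ hdd] at hT
    rwa [mul_comm] at hT) (Nm ⟨0, hd⟩ g) (det_Nm _ hg)
  rw [← nb_Nm' ⟨0, hd⟩ g]
  exact (hasNu_nuInf _ m hm).trans hm2.le

lemma NV_closed (hd : 3 ≤ d) : IsClosed (insert 0 (NV d)) := by
  rw [← isSeqClosed_iff_isClosed]
  intro u μ hu hlim
  have hμ0 : 0 ≤ μ := by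
    refine ge_of_tendsto' hlim fun n => ?_
    rcases hu n with h | h
    · rw [h]
    · exact h.1.le
  rcases hμ0.eq_or_lt with h0 | hμ
  · rw [← h0]; exact Set.mem_insert _ _
  · right
    obtain ⟨N, hN⟩ := eventually_atTop.1 (hlim.eventually (lt_mem_nhds (half_lt_self hμ)))
    have hv : ∀ n, ∃ g : Matrix (Fin d) (Fin d) ℝ, |g.det| = 1 ∧ ¬ PropInt g ∧
        nuInf g = u (n + N) := by
      intro n
      rcases hu (n + N) with h0 | h1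
      · exfalso
        have := hN (n + N) (Nat.le_add_left _ _)
        rw [h0] at this
        linarith
      · exact h1.2
    choose gs hg1 hg2 hg3 using hv
    have hlim' : Tendsto (fun n => nuInf (gs n)) atTop (𝓝 μ) := by
      simp only [hg3]
      exact (tendsto_add_atTop_iff_nat N).2 hlim
    obtain ⟨h, hh1, hh2, hh3⟩ := closed_seq hd (half_pos hμ) gs hg1
      (fun n => HasNu.mono' (hasNu_nuInf (gs n)) (by
        rw [hg3]; exact (hN (n + N) (Nat.le_add_left _ _)).le)) hlim' hg2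
    exact ⟨hμ, h, hh1, hh3, hh2⟩

lemma NV_max (hd : 3 ≤ d) (hne : (NV d).Nonempty) : ∃ τ ∈ NV d, ∀ t ∈ NV d, t ≤ τ := by
  have hd0 : 0 < d := by omega
  obtain ⟨t₀, ht₀⟩ := hne
  have hbdd : BddAbove (insert 0 (NV d)) := by
    refine ⟨(d.factorial : ℝ) / (d : ℝ) ^ d, ?_⟩
    rintro t (rfl | ht)
    · positivity
    · exact NV_le hd0 ht
  have hτmem : sSup (insert 0 (NV d)) ∈ insert 0 (NV d) :=
    (NV_closed hd).csSup_mem ⟨0, Set.mem_insert _ _⟩ hbdd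
  have hle : ∀ t ∈ NV d, t ≤ sSup (insert 0 (NV d)) := fun t ht => le_csSup hbdd (Or.inr ht)
  have hτ0 := ht₀.1.trans_le (hle t₀ ht₀)
  exact ⟨_, hτmem.resolve_left hτ0.ne', hle⟩

/-- the orbit closure of an extremal form -/
lemma NV_ext (hd : 3 ≤ d) {τ : ℝ} (hτ0 : 0 < τ) (hmax : ∀ t ∈ NV d, t ≤ τ)
    {g : Matrix (Fin d) (Fin d) ℝ} (hg : g.det ≠ 0) (hgτ : nb g = τ) (hint : ¬ PropInt g)
    {h : Matrix (Fin d) (Fin d) ℝ} (hh : h ∈ closure (Orb g)) : ¬ PropInt h ∧ nb h = τ := by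
  have hd0 : 0 < d := by omega
  have hg0 : 0 < |g.det| := abs_pos.2 hg
  have h2 : HasNu g (τ * |g.det|) := hasNu_of_nb hg hgτ.ge
  have h3 : ¬ PropInt h := not_propInt_cl hd hg (mul_pos hτ0 hg0) h2 hint hh
  have h4 : |h.det| = |g.det| := abs_det_closure hh
  have h5 : h.det ≠ 0 := by rw [← abs_ne_zero, h4, abs_ne_zero]; exact hg
  have h6 : τ ≤ nb h := by
    rw [nb, le_div_iff₀ (abs_pos.2 h5), h4]
    exact le_nuInf hd0 (hasNu_closure h2 hh)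
  exact ⟨h3, le_antisymm (hmax _ ((mem_NV hd0).2 ⟨hτ0.trans_le h6, h, h5, h3, rfl⟩)) h6⟩

/-- the largest value is attained by a recurrent form with attained minimum -/
lemma NV_att (hd : 3 ≤ d) {τ : ℝ} (hτ : τ ∈ NV d) (hmax : ∀ t ∈ NV d, t ≤ τ) :
    ∃ h : Matrix (Fin d) (Fin d) ℝ, |h.det| = 1 ∧ nuInf h = τ ∧ ¬ PropInt h ∧ Recurrent h ∧
      ∃ x₀ : Fin d → ℤ, x₀ ≠ 0 ∧ |FF h (iR x₀)| = τ := by
  have hd0 : 0 < d := by omega
  obtain ⟨hτ0, g, hg, hint, hgτ⟩ := hτ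
  have hnu : HasNu g τ := by rw [← hgτ]; exact hasNu_nuInf g
  obtain ⟨h, hh, hrec, x₀, hx₀, hmin⟩ := exists_recurrent_attained hd0 hτ0 (det_ne_of_one hg) hnu
  obtain ⟨h1, h2⟩ := NV_ext hd hτ0 hmax (det_ne_of_one hg) (by rw [nb_of_one hg, hgτ]) hint hh
  have h4 : |h.det| = 1 := (abs_det_closure hh).trans hg
  have h5 : nuInf h = τ := by rw [← nb_of_one h4]; exact h2
  refine ⟨h, h4, h5, h1, hrec, x₀, hx₀, ?_⟩
  have := nonempty_ne hd0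
  refine le_antisymm ?_ ?_
  · rw [← h5]
    exact le_ciInf fun x => hmin x.1 x.2
  · rw [← h5]
    exact hasNu_nuInf h x₀ hx₀

/-- uncountably many classes, all with bounded representatives -/
lemma NV_unc (hd : 3 ≤ d) {τ : ℝ} (hτ : τ ∈ NV d) (hmax : ∀ t ∈ NV d, t ≤ τ) :
    ∃ B : ℝ, ∀ h : ℕ → Matrix (Fin d) (Fin d) ℝ, ∃ g : Matrix (Fin d) (Fin d) ℝ, g.det ≠ 0 ∧
      nb g = τ ∧ ¬ PropInt g ∧ ∏ i, ‖g i‖ ≤ B * |g.det| ∧ ∀ n, ¬ Eqv g (h n) := by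
  have hd0 : 0 < d := by omega
  obtain ⟨hτ0, g, hg, hint, hgτ⟩ := hτ
  have hnu : HasNu g τ := by rw [← hgτ]; exact hasNu_nuInf g
  obtain ⟨B, -, hB⟩ := exists_reduced hd0 hτ0
  refine ⟨B, fun h => ?_⟩
  obtain ⟨g', hg', -, hint', hne⟩ := uncountable_family hd (det_ne_of_one hg) hτ0 hnu hint h
  obtain ⟨h1, h2⟩ := NV_ext hd hτ0 hmax (det_ne_of_one hg) (by rw [nb_of_one hg, hgτ]) hint hg'
  have hdet' : |g'.det| = 1 := (abs_det_closure hg').trans hg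
  obtain ⟨γ, hγ, hγB⟩ := hB g' (det_ne_of_one hdet') h2.ge
  have horb : g' * zR γ ∈ Orb g' := mem_orb_gam g' hγ
  have hdet'' : |(g' * zR γ).det| = 1 := (abs_det_closure (subset_closure horb)).trans hdet'
  refine ⟨g' * zR γ, det_ne_of_one hdet'', ?_, fun hP => h1 ?_, hγB, fun n hn => ?_⟩
  · rw [nb_of_one hdet'', nuInf_orb hd0 horb, ← nb_of_one hdet', h2]
  · refine propInt_of_orb hd (det_ne_of_one hdet') hτ0 ?_ horb hP
    have h3 := hasNu_nuInf g'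
    rwa [← nb_of_one hdet', h2] at h3
  · have h3 : Eqv g' (g' * zR γ) := REqv.eqv ⟨γ, hγ, SamePl.refl _⟩
    obtain ⟨c, δ, -, hδ, heq⟩ := h3.trans hn
    obtain ⟨x, hx⟩ := hne n δ c hδ
    exact hx (heq x)

/-- the planes of the rows of `g` are invariant under `A` -/
def InvP (A : Matrix (Fin d) (Fin d) ℤ) (g : Matrix (Fin d) (Fin d) ℝ) : Prop :=
  ∀ i : Fin d, ∀ x : Fin d → ℝ, (g *ᵥ x) i = 0 → (g *ᵥ (zR A *ᵥ x)) i = 0

lemma SamePl.inv {A : Matrix (Fin d) (Fin d) ℤ} {g k : Matrix (Fin d) (Fin d) ℝ}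
    (hgk : SamePl g k) (hA : InvP A k) : InvP A g := by
  obtain ⟨a, ha, rfl⟩ := hgk
  intro i x hx
  rw [← mulVec_mulVec, mulVec_diagonal] at hx ⊢
  rw [hA i x ((mul_eq_zero.1 hx).resolve_left (ha i)), mul_zero]

lemma inv_conj {A γ : Matrix (Fin d) (Fin d) ℤ} (hγ : IsUnit γ.det)
    {g : Matrix (Fin d) (Fin d) ℝ} (hA : InvP A (g * zR γ)) : InvP (γ * A * γ⁻¹) g := by
  intro i x hx
  have h1 : ((g * zR γ) *ᵥ (zR γ⁻¹ *ᵥ x)) i = 0 := by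
    rw [mulVec_mulVec, Matrix.mul_assoc, zR_inv hγ, Matrix.mul_one]
    exact hx
  have h2 := hA i _ h1
  rw [zR_mul, zR_mul]
  simp only [mulVec_mulVec, Matrix.mul_assoc] at h2 ⊢
  exact h2

/-- an integral matrix with determinant one, irreducible characteristic polynomial and real
eigenvalues -/
def IRS (A : Matrix (Fin d) (Fin d) ℤ) : Prop :=
  A.det = 1 ∧ Irreducible (A.charpoly.map (Int.castRingHom ℚ)) ∧
    ∀ z : ℂ, Polynomial.aeval z A.charpoly = 0 → z.im = 0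

lemma IRS.conj {A γ : Matrix (Fin d) (Fin d) ℤ} (hA : IRS A) (hγ : IsUnit γ.det) :
    IRS (γ * A * γ⁻¹) := by
  have h1 : (γ * A * γ⁻¹).charpoly = A.charpoly := by
    have h2 := Matrix.charpoly_units_conj (Matrix.nonsingInvUnit γ hγ) A
    exact h2
  have h3 : (γ * A * γ⁻¹).det = A.det := by
    have h4 : γ.det * (γ⁻¹).det = 1 := by
      rw [← det_mul, Matrix.mul_nonsing_inv _ hγ, det_one]
    rw [det_mul, det_mul, mul_comm γ.det, mul_assoc, h4, mul_one]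
  refine ⟨h3.trans hA.1, ?_, ?_⟩
  · rw [h1]; exact hA.2.1
  · rw [h1]; exact hA.2.2

lemma exists_IRS (hd : 0 < d) {g : Matrix (Fin d) (Fin d) ℝ} (hg : g.det ≠ 0) {ν : ℝ} (hν : 0 < ν)
    (hnu : HasNu g ν) (hP : PropInt g) : ∃ A : Matrix (Fin d) (Fin d) ℤ, IRS A ∧ InvP A g := by
  obtain ⟨A, h1, h2, h3, h4⟩ := Pool.Agent.H905R2.Opp.oppA g hd hg hP (by
    intro p hp h0
    have h2 := hnu p hp
    rw [h0, abs_zero] at h2
    exact absurd h2 (not_le.2 hν))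
  exact ⟨A, ⟨h1, h2, h3⟩, h4⟩

/-- **Finitely many matrices.** -/
theorem finite_mats (hd : 3 ≤ d) {K : Set ℝ} (hK : IsCompact K) {ν : ℝ} (hν : 0 < ν)
    (hKν : ∀ t ∈ K, ν ≤ t)
    (hall : ∀ g : Matrix (Fin d) (Fin d) ℝ, |g.det| = 1 → nuInf g ∈ K → PropInt g) (B : ℝ) :
    ∃ S : Finset (Matrix (Fin d) (Fin d) ℤ), (∀ A ∈ S, IRS A) ∧
      ∀ g : Matrix (Fin d) (Fin d) ℝ, g.det ≠ 0 → nb g ∈ K → ∏ i, ‖g i‖ ≤ B * |g.det| →
        ∃ A ∈ S, InvP A g := by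
  classical
  have hd0 : 0 < d := by omega
  obtain ⟨H, hH1, hH2⟩ := finite_planes hd hK hν hKν hall B
  have hA : ∀ h ∈ H, ∃ A : Matrix (Fin d) (Fin d) ℤ, IRS A ∧ InvP A h := by
    intro h hh
    obtain ⟨h1, h2⟩ := hH1 h hh
    exact exists_IRS hd0 (det_ne_of_one h1) hν (HasNu.mono' (hasNu_nuInf h) (hKν _ h2))
      (hall h h1 h2)
  choose! A hA1 hA2 using hA
  refine ⟨H.image A, fun M hM => ?_, fun g hg hgK hgB => ?_⟩
  · obtain ⟨h, hh, rfl⟩ := Finset.mem_image.1 hM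
    exact hA1 h hh
  · obtain ⟨h, hh, hgh⟩ := hH2 g hg hgK hgB
    exact ⟨A h, Finset.mem_image.2 ⟨h, hh, rfl⟩, hgh.inv (hA2 h hh)⟩

/-- **Finitely many matrices up to conjugation.** -/
theorem finite_mats_conj (hd : 3 ≤ d) {K : Set ℝ} (hK : IsCompact K) {ν : ℝ} (hν : 0 < ν)
    (hKν : ∀ t ∈ K, ν ≤ t)
    (hall : ∀ g : Matrix (Fin d) (Fin d) ℝ, |g.det| = 1 → nuInf g ∈ K → PropInt g) :
    ∃ S : Finset (Matrix (Fin d) (Fin d) ℤ), (∀ A ∈ S, IRS A) ∧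
      ∀ g : Matrix (Fin d) (Fin d) ℝ, g.det ≠ 0 → nb g ∈ K →
        ∃ A ∈ S, ∃ γ : Matrix (Fin d) (Fin d) ℤ, IsUnit γ.det ∧ InvP (γ * A * γ⁻¹) g := by
  classical
  have hd0 : 0 < d := by omega
  obtain ⟨B, -, hB⟩ := exists_reduced hd0 hν
  obtain ⟨S, hS1, hS2⟩ := finite_mats hd hK hν hKν hall B
  refine ⟨S, hS1, fun g hg hgK => ?_⟩
  obtain ⟨γ, hγ, hγB⟩ := hB g hg (hKν _ hgK)
  have h1 : |(g * zR γ).det| = |g.det| := abs_det_closure (subset_closure (mem_orb_gam g hγ))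
  have h2 : nb (g * zR γ) = nb g := by
    rw [nb, nb, h1, nuInf_orb hd0 (mem_orb_gam g hγ)]
  obtain ⟨A, hA, hA2⟩ := hS2 (g * zR γ) (by rw [← abs_ne_zero, h1, abs_ne_zero]; exact hg)
    (by rw [h2]; exact hgK) hγB
  exact ⟨A, hA, γ, hγ, inv_conj hγ hA2⟩

end Pool.Agent.helper890_csd
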